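import Pool.Agent.Helper73.HM.St

/-! # HM module CH: the chain of atoms -/

namespace Pool.Agent.Helper34.HM

open Ordinal Cardinal ZFSet Order Pool.Agent.Helper73.HODC Pool.Agent.Helper73.HE
  Pool.Agent.Helper73.HM

/-- the property of the next atom, relative to the family `F` -/
def PCh (κ : Cardinal.{0}) (lam : Ordinal.{0}) (F : Ordinal.{0} → Set Ordinal.{0})
    (ζ : Ordinal.{0}) (B : ZFSet.{0}) : Prop :=
  Pool.Agent.Helper73.HM.Atom lam (st B) ∧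
    ∀ σ ∈ st B, ℵ₀ < σ.cof ∧ σ.cof < κ ∧ ∀ ξ, ξ < ζ → Stat (F ξ) σ

/-- the chain of atoms -/
def Ch (κ : Cardinal.{0}) (lam : Ordinal.{0}) (ζ : Ordinal.{0}) : Set Ordinal.{0} :=
  {a | ∃ B, LeastOD lam (fun B => Pool.Agent.Helper73.HM.Atom lam (st B) ∧
    ∀ σ ∈ st B, ℵ₀ < σ.cof ∧ σ.cof < κ ∧ ∀ ξ : Set.Iio ζ, Stat (Ch κ lam ξ.1) σ) B ∧ a ∈ st B}
termination_by ζ
decreasing_by exact ξ.2

theorem mem_Ch {κ : Cardinal.{0}} {lam ζ a : Ordinal.{0}} : a ∈ Ch κ lam ζ ↔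
    ∃ B, LeastOD lam (PCh κ lam (Ch κ lam) ζ) B ∧ a ∈ st B := by
  rw [Ch]
  have : (fun B => Pool.Agent.Helper73.HM.Atom lam (st B) ∧
      ∀ σ ∈ st B, ℵ₀ < σ.cof ∧ σ.cof < κ ∧ ∀ ξ : Set.Iio ζ, Stat (Ch κ lam ξ.1) σ) =
      PCh κ lam (Ch κ lam) ζ := by
    funext B
    unfold PCh
    simp only [Subtype.forall, Set.mem_Iio]
  rw [this]
  rfl

theorem PCh_congr {κ : Cardinal.{0}} {lam ζ : Ordinal.{0}} {F F' : Ordinal.{0} → Set Ordinal.{0}}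
    (h : ∀ ξ < ζ, F ξ = F' ξ) : PCh κ lam F ζ = PCh κ lam F' ζ := by
  funext B
  unfold PCh
  refine propext (and_congr_right fun _ => forall_congr' fun σ => forall_congr' fun _ =>
    and_congr_right fun _ => and_congr_right fun _ => forall_congr' fun ξ =>
      forall_congr' fun hξ => ?_)
  rw [h ξ hξ]

theorem dp_sub_od (h5 : StHP) (lam : Ordinal.{0}) (i : ℕ) :
    DP (fun v => OD (v i) ∧ v i ⊆ lam.toZFSet) := by
  refine (DP.exO (Q := fun x v => x = lam ∧ v i ∈ hodPow x)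
    ((DP.rank_eq_ord 0 lam).and (DP.of (h5.2 (i + 1) 0)))).congr fun v => ?_
  constructor
  · rintro ⟨h, h'⟩
    exact ⟨lam, rfl, mem_hodPow.2 ⟨h', h⟩⟩
  · rintro ⟨x, rfl, h⟩
    exact ⟨(mem_hodPow.1 h).2, (mem_hodPow.1 h).1⟩

theorem dp_atom (h5 : StHP) (lam : Ordinal.{0}) (i : ℕ) :
    DP (fun v => Pool.Agent.Helper73.HM.Atom lam (st (v i))) := by
  refine DP.and ?_ ?_
  · exact DP.statC (Q := fun a v => a ∈ st (v i)) (DP.st 0 (i + 1)) lam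
  · refine DP.all (Q := fun B v => OD B → B ⊆ lam.toZFSet →
      ¬ Pool.Agent.Helper73.HM.Spl lam (st (v i)) B) ?_
    have h1 : DP (fun v => (OD (v 0) ∧ v 0 ⊆ lam.toZFSet) →
        ¬ Pool.Agent.Helper73.HM.Spl lam (st (v (i + 1))) (v 0)) := by
      refine DP.imp (dp_sub_od h5 lam 0) (DP.not (DP.and ?_ ?_))
      · exact DP.statC (Q := fun a v => a ∈ st (v (i + 1)) ∧ a ∈ st (v 0))
          ((DP.st 0 (i + 2)).and (DP.st 0 1)) lam
      · exact DP.statC (Q := fun a v => a ∈ st (v (i + 1)) ∧ a ∉ st (v 0))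
          ((DP.st 0 (i + 2)).and (DP.st 0 1).not) lam
    exact h1.congr fun v => ⟨fun h h' => h h'.1 h'.2, fun h h' h'' => h ⟨h', h''⟩⟩

theorem dp_cof (h6 : StCF) (i : ℕ) : DP (fun v => ℵ₀ < (v i).rank.cof) := by
  refine (h6 (succ ℵ₀) i).not.congr fun v => ?_
  rw [not_lt, succ_le_iff]

theorem dp_ch (h3 : StLD) (h4 : StRE) (h5 : StHP) (h6 : StCF) (κ : Cardinal.{0})
    (lam : Ordinal.{0}) : DPr (Ch κ lam) := by
  refine h4 lam (fun _ ζ => Ch κ lam ζ)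
    (fun ζ W a _ => ∃ B, LeastOD lam (PCh κ lam (sec W) ζ) B ∧ a ∈ st B) ?_ ?_ ?_
  · refine DP.ex (Q := fun B v => LeastOD lam (PCh κ lam (sec (v 1)) (v 0).rank) B ∧
      (v 2).rank ∈ st B) ?_
    refine DP.and ?_ (DP.st 3 0)
    refine h3 lam (fun B v => PCh κ lam (sec (v 2)) (v 1).rank B) ?_ 0
    refine DP.and (dp_atom h5 lam 0) ?_
    refine DP.allO (Q := fun σ v => σ ∈ st (v 0) → ℵ₀ < σ.cof ∧ σ.cof < κ ∧
      ∀ ξ, ξ < (v 2).rank → Stat (sec (v 3) ξ) σ) ?_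
    refine DP.imp (DP.st 0 1) (DP.and (dp_cof h6 0) (DP.and (h6 κ 0) ?_))
    refine DP.allO (Q := fun ξ v => ξ < (v 3).rank → Stat (sec (v 4) ξ) (v 0).rank) ?_
    refine DP.imp (DP.rank_lt 0 4) ?_
    exact DP.statV (Q := fun a v => a ∈ sec (v 5) (v 0).rank) (DP.sec 0 6 1) 1
  · intro v ζ a ha
    obtain ⟨B, hB, h⟩ := mem_Ch.1 ha
    exact lt_of_mem_st hB.1.2.1 h
  · intro v ζ W hW a
    rw [mem_Ch, PCh_congr hW]

theorem ch (h1 : StRefl) (h2 : StLE) (h3 : StLD) (h4 : StRE) (h5 : StHP) (h6 : StCF) : StCH := by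
  intro κ c hκ hc hκc hyp
  have hD : DPr (Ch κ c.ord) := dp_ch h3 h4 h5 h6 κ c.ord
  -- consequences of the existence of the least set
  have key : ∀ ζ, (∃ B, LeastOD c.ord (PCh κ c.ord (Ch κ c.ord) ζ) B) →
      (∀ a ∈ Ch κ c.ord ζ, a < c.ord) ∧ Pool.Agent.Helper73.HM.Atom c.ord (Ch κ c.ord ζ) ∧
        ∀ σ ∈ Ch κ c.ord ζ, ℵ₀ < σ.cof ∧ σ.cof < κ ∧ ∀ ξ < ζ, Stat (Ch κ c.ord ξ) σ := by
    rintro ζ ⟨B, hB⟩
    have h : Ch κ c.ord ζ = st B := by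
      ext a
      rw [mem_Ch]
      constructor
      · rintro ⟨B', hB', h⟩
        rwa [h2.1 _ _ _ _ hB' hB] at h
      · intro h
        exact ⟨B, hB, h⟩
    rw [h]
    exact ⟨fun a ha => lt_of_mem_st hB.1.2.1 ha, hB.1.2.2.1, hB.1.2.2.2⟩
  have main : ∀ ζ, ζ < κ.ord → ∃ B, LeastOD c.ord (PCh κ c.ord (Ch κ c.ord) ζ) B := by
    intro ζ
    induction ζ using WellFoundedLT.induction with
    | ind ζ ih =>
      intro hζ
      have ih' : ∀ ξ < ζ, _ := fun ξ hξ => key ξ (ih ξ hξ (hξ.trans hζ))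
      have hT : Stat {σ | ℵ₀ < σ.cof ∧ σ.cof < κ ∧
          ∀ i : ζ.ToType, Stat (Ch κ c.ord ((ToType.mk).symm i).1) σ} c.ord := by
        refine h1 κ c hκ hc hκc ζ.ToType ?_ _ ?_ ?_
        · rw [mk_toType]
          exact lt_ord.1 hζ
        · intro i
          exact (ih' _ ((ToType.mk).symm i).2).2.1.1
        · intro i a ha
          exact ((ih' _ ((ToType.mk).symm i).2).2.2 a ha).2.1
      have hT' : Stat {σ | ℵ₀ < σ.cof ∧ σ.cof < κ ∧ ∀ ξ < ζ, Stat (Ch κ c.ord ξ) σ} c.ord := by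
        refine hT.mono fun σ hσ _ => ⟨hσ.1, hσ.2.1, fun ξ hξ => ?_⟩
        have := hσ.2.2 (ToType.mk ⟨ξ, hξ⟩)
        simpa using this
      have hTD : DPs {σ | ℵ₀ < σ.cof ∧ σ.cof < κ ∧ ∀ ξ < ζ, Stat (Ch κ c.ord ξ) σ} := by
        refine DP.and (dp_cof h6 0) (DP.and (h6 κ 0) ?_)
        refine DP.allO (Q := fun ξ v => ξ < ζ → Stat (Ch κ c.ord ξ) (v 0).rank) ?_
        refine DP.imp (DP.rank_lt_ord 0 ζ) ?_
        exact DP.statV (Q := fun a v => a ∈ Ch κ c.ord (v 0).rank) (DPr.at hD 0 1) 1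
      obtain ⟨A', hA1, hA2, hA3⟩ := hyp _ hTD hT' fun a ha => ⟨ha.1, ha.2.1⟩
      have hst : st (ordSet c.ord A') = A' := by
        ext a
        rw [mem_st_ordSet]
        exact ⟨fun h => h.2, fun h => ⟨(hA2 a h).2, h⟩⟩
      refine h2.2 _ _ ⟨ordSet c.ord A', od_ordSet hA1 _, ordSet_sub _ _, ?_, ?_⟩
      · rw [hst]; exact hA3
      · rw [hst]
        intro σ hσ
        exact (hA2 σ hσ).1
  exact ⟨Ch κ c.ord, hD, fun ζ hζ => key ζ (main ζ hζ)⟩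

end Pool.Agent.Helper34.HM
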